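import Pool.Agent.Helper68.Dom.Goals
import Mathlib

/-!
# Project DOM (MP_18808e_co), packet KMY: the graph `KY n` is a member of `M_n`
-/

set_option autoImplicit false

namespace NApexGraphs.Dom.Helper39

open SimpleGraph NApexGraphs NApexGraphs.Dom

section six

variable {V : Type} {G : SimpleGraph V}

theorem nbrs {κ : Type} {Z : Finset V} {B : κ → Set V}
    (hd : ∀ k l, k ≠ l → Disjoint (B k) (B l)) (hs : ∀ k, B k ⊆ Z) (s : Finset κ) (z : V)
    (h : ∀ l ∈ s, ∃ w ∈ B l, G.Adj z w) :
    ∃ N : Finset V, N ⊆ Z ∧ N.card = s.card ∧ ∀ w ∈ N, G.Adj z w := by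
  classical
  have : ∀ l, ∃ w, l ∈ s → w ∈ B l ∧ G.Adj z w := fun l => by
    by_cases hl : l ∈ s
    · obtain ⟨w, hw, hzw⟩ := h l hl
      exact ⟨w, fun _ => ⟨hw, hzw⟩⟩
    · exact ⟨z, fun h => absurd h hl⟩
  choose φ hφ using this
  refine ⟨s.image φ, ?_, ?_, ?_⟩
  · intro w hw
    obtain ⟨l, hl, rfl⟩ := Finset.mem_image.1 hw
    exact hs l (hφ l hl).1
  · refine Finset.card_image_of_injOn fun l hl l' hl' he => ?_
    by_contra hne
    have h1 := (hφ l hl).1
    have h2 := (hφ l' hl').1
    have he' : φ l = φ l' := he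
    rw [he'] at h1
    exact Set.disjoint_left.1 (hd l l' hne) h1 h2
  · intro w hw
    obtain ⟨l, hl, rfl⟩ := Finset.mem_image.1 hw
    exact (hφ l hl).2

theorem six33 (Z : Finset V) (hZ : Z.card = 6) (B : Fin 3 ⊕ Fin 3 → Set V)
    (hB : IsModel K33 G B) (hs : ∀ k, B k ⊆ Z) :
    (∀ k x y, x ∈ B k → y ∈ B k → x = y) ∧
    ∀ z ∈ Z, ∃ N : Finset V, N ⊆ Z ∧ N.card = 3 ∧ ∀ w ∈ N, G.Adj z w := by
  rw [isModel_iff] at hB
  obtain ⟨hc, hd, ha⟩ := hB
  have hC : Z.card ≤ Fintype.card (Fin 3 ⊕ Fin 3) := by simp [hZ]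
  have hm : ∀ k, ∃ x ∈ Z, x ∈ B k := fun k => by
    obtain ⟨x, hx⟩ := (hc k).1
    exact ⟨x, hs k hx, hx⟩
  have huniq : ∀ k x y, x ∈ B k → y ∈ B k → x = y := fun k x y hx hy =>
    meet_unique hd hC hm (hs k hx) (hs k hy) hx hy
  refine ⟨huniq, fun z hz => ?_⟩
  obtain ⟨k, hk⟩ := meet_all hd hC hm hz
  obtain ⟨s, hs3, hsadj⟩ := kur_K33.deg3 k
  obtain ⟨N, h1, h2, h3⟩ := nbrs (G := G) hd hs s z fun l hl => by
    obtain ⟨x, hx, w, hw, hxw⟩ := ha k l (hsadj l hl)
    rw [huniq k x z hx hk] at hxw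
    exact ⟨w, hw, hxw⟩
  exact ⟨N, h1, h2.trans hs3, h3⟩

theorem six5 (Z : Finset V) (hZ : Z.card = 6) (B : Fin 5 → Set V)
    (hB : IsModel K5 G B) (hs : ∀ k, B k ⊆ Z) :
    ∃ p ∈ Z, ∃ q ∈ Z, (p = q ∨ G.Adj p q) ∧
      (∀ z ∈ Z, ∀ w ∈ Z, z ≠ p → z ≠ q → w ≠ p → w ≠ q → z ≠ w → G.Adj z w) ∧
      (∀ z ∈ Z, z ≠ p → z ≠ q → p = q ∨ G.Adj z p ∨ G.Adj z q) ∧
      (∀ z ∈ Z, z ≠ p → z ≠ q → ∃ N : Finset V, N ⊆ Z ∧ N.card = 4 ∧ ∀ w ∈ N, G.Adj z w) ∧
      (∀ k x y, x ∈ B k → y ∈ B k → x ≠ y → (x = p ∨ x = q) ∧ (y = p ∨ y = q)) := by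
  classical
  rw [isModel_iff] at hB
  obtain ⟨hc, hd, ha⟩ := hB
  have hne : ∀ k, ∃ x, x ∈ B k := fun k => (hc k).1
  choose f hf using hne
  have hsame : ∀ k l x, x ∈ B k → x ∈ B l → k = l := fun k l x hk hl => by
    by_contra hkl
    exact Set.disjoint_left.1 (hd k l hkl) hk hl
  have hinj : Function.Injective f := fun k l h => hsame k l (f k) (hf k) (by rw [h]; exact hf l)
  have hFZ : Finset.univ.image f ⊆ Z := fun x hx => by
    obtain ⟨k, -, rfl⟩ := Finset.mem_image.1 hx
    exact hs k (hf k)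
  have hF : (Finset.univ.image f).card = 5 := by
    rw [Finset.card_image_of_injective _ hinj]
    rfl
  have h1 : (Z \ Finset.univ.image f).card = 1 := by
    rw [Finset.card_sdiff_of_subset hFZ]
    omega
  obtain ⟨p, hp⟩ := Finset.card_eq_one.1 h1
  have hpZ : p ∈ Z \ Finset.univ.image f := by
    rw [hp]
    exact Finset.mem_singleton_self p
  rw [Finset.mem_sdiff] at hpZ
  have hpf : ∀ k, f k ≠ p := fun k h =>
    hpZ.2 (Finset.mem_image.2 ⟨k, Finset.mem_univ _, h⟩)
  have hZf : ∀ z ∈ Z, z ≠ p → ∃ k, f k = z := fun z hz hzp => by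
    by_contra hcon
    have : z ∈ Z \ Finset.univ.image f := Finset.mem_sdiff.2 ⟨hz, fun h => by
      obtain ⟨k, -, hk⟩ := Finset.mem_image.1 h
      exact hcon ⟨k, hk⟩⟩
    rw [hp, Finset.mem_singleton] at this
    exact hzp this
  have hBk : ∀ k, ∀ z ∈ B k, z ≠ p → z = f k := fun k z hz hzp => by
    obtain ⟨l, rfl⟩ := hZf z (hs k hz) hzp
    rw [hsame l k (f l) (hf l) hz]
  obtain ⟨q, hqZ, hpq, hq⟩ : ∃ q ∈ Z, (p = q ∨ G.Adj p q) ∧ ∀ k, p ∈ B k → f k = q := by
    by_cases hk : ∃ k, p ∈ B k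
    · obtain ⟨k, hk⟩ := hk
      refine ⟨f k, hs k (hf k), Or.inr ?_, fun l hl => by rw [hsame l k p hl hk]⟩
      obtain ⟨x, hx, hxA, y, hy, hyA, hxy⟩ := (hc k).exists_edge (A := {p}) ⟨p, hk, rfl⟩
        ⟨f k, hf k, fun h => hpf k h⟩
      rw [Set.mem_singleton_iff] at hxA
      rw [hxA, hBk k y hy fun h => hyA h] at hxy
      exact hxy
    · exact ⟨p, hpZ.1, Or.inl rfl, fun k h => absurd ⟨k, h⟩ hk⟩
  have hal : ∀ z ∈ Z, z ≠ p → z ≠ q → ∃ k, z ∈ B k ∧ ∀ x ∈ B k, x = z := fun z hz hzp hzq => by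
    obtain ⟨k, rfl⟩ := hZf z hz hzp
    exact ⟨k, hf k, fun x hx => hBk k x hx fun h => hzq (hq k (h ▸ hx))⟩
  refine ⟨p, hpZ.1, q, hqZ, hpq, ?_, ?_, ?_, ?_⟩
  · intro z hz w hw hzp hzq hwp hwq hzw
    obtain ⟨k, hk, hk'⟩ := hal z hz hzp hzq
    obtain ⟨l, hl, hl'⟩ := hal w hw hwp hwq
    have hkl : k ≠ l := fun h => hzw (hl' z (h ▸ hk))
    obtain ⟨x, hx, y, hy, hxy⟩ := ha k l hkl
    rw [hk' x hx, hl' y hy] at hxy
    exact hxy
  · intro z hz hzp hzq
    by_cases he : p = q
    · exact Or.inl he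
    · right
      obtain ⟨k, hk, hk'⟩ := hal z hz hzp hzq
      obtain ⟨l, hl⟩ := hZf q hqZ (fun h => he h.symm)
      have hkl : k ≠ l := fun h => hzq (by
        have h2 := hk' (f l) (by rw [h]; exact hf l)
        rw [← h2, hl])
      obtain ⟨x, hx, y, hy, hxy⟩ := ha k l hkl
      rw [hk' x hx] at hxy
      by_cases hyp : y = p
      · rw [hyp] at hxy
        exact Or.inl hxy
      · rw [hBk l y hy hyp, hl] at hxy
        exact Or.inr hxy
  · intro z hz hzp hzq
    obtain ⟨k, hk, hk'⟩ := hal z hz hzp hzq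
    obtain ⟨N, n1, n2, n3⟩ := nbrs (G := G) hd hs (Finset.univ.erase k) z fun l hl => by
      obtain ⟨x, hx, w, hw, hxw⟩ := ha k l (Finset.ne_of_mem_erase hl).symm
      rw [hk' x hx] at hxw
      exact ⟨w, hw, hxw⟩
    refine ⟨N, n1, n2.trans ?_, n3⟩
    rw [Finset.card_erase_of_mem (Finset.mem_univ k)]
    rfl
  · intro k x y hx hy hxy
    have hpk : p ∈ B k := by
      by_contra hpk
      have e1 := hBk k x hx fun h => hpk (h ▸ hx)
      have e2 := hBk k y hy fun h => hpk (h ▸ hy)
      exact hxy (e1.trans e2.symm)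
    have hfk := hq k hpk
    refine ⟨?_, ?_⟩
    · by_cases h : x = p
      · exact Or.inl h
      · exact Or.inr ((hBk k x hx h).trans hfk)
    · by_cases h : y = p
      · exact Or.inl h
      · exact Or.inr ((hBk k y hy h).trans hfk)

/-- the same, when `y` has at most three neighbours -/
theorem six5' (Z : Finset V) (hZ : Z.card = 6) (B : Fin 5 → Set V)
    (hB : IsModel K5 G B) (hs : ∀ k, B k ⊆ Z) (y : V) (hy : y ∈ Z)
    (hdeg : ∀ N ⊆ Z, (∀ w ∈ N, G.Adj y w) → N.card ≤ 3) :
    ∃ t ∈ Z, (y = t ∨ G.Adj y t) ∧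
      (∀ z ∈ Z, ∀ w ∈ Z, z ≠ y → z ≠ t → w ≠ y → w ≠ t → z ≠ w → G.Adj z w) ∧
      (∀ z ∈ Z, z ≠ y → z ≠ t → y = t ∨ G.Adj z y ∨ G.Adj z t) ∧
      (∀ z ∈ Z, z ≠ y → z ≠ t → ∃ N : Finset V, N ⊆ Z ∧ N.card = 4 ∧ ∀ w ∈ N, G.Adj z w) ∧
      (∀ k x x', x ∈ B k → x' ∈ B k → x ≠ x' → (x = y ∨ x = t) ∧ (x' = y ∨ x' = t)) := by
  obtain ⟨p, hp, q, hq, h0, h1, h2, h3, h4⟩ := six5 Z hZ B hB hs
  have hy' : y = p ∨ y = q := by
    by_contra hcon
    obtain ⟨N, n1, n2, n3⟩ := h3 y hy (fun h => hcon (Or.inl h)) fun h => hcon (Or.inr h)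
    have := hdeg N n1 n3
    omega
  rcases hy' with rfl | rfl
  · exact ⟨q, hq, h0, h1, h2, h3, h4⟩
  · refine ⟨p, hp, ?_, ?_, ?_, ?_, ?_⟩
    · rcases h0 with h | h
      · exact Or.inl h.symm
      · exact Or.inr h.symm
    · exact fun z hz w hw a b c d e => h1 z hz w hw b a d c e
    · intro z hz a b
      rcases h2 z hz b a with h | h | h
      · exact Or.inl h.symm
      · exact Or.inr (Or.inr h)
      · exact Or.inr (Or.inl h)
    · exact fun z hz a b => h3 z hz b a
    · exact fun k x x' hx hx' hne => ⟨(h4 k x x' hx hx' hne).1.symm, (h4 k x x' hx hx' hne).2.symm⟩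

end six

section ky

variable {n : ℕ}

theorem adj_ss (i j : Fin (n + 5)) :
    (KY n).Adj (some i) (some j) ↔ i ≠ j ∧ ¬ (i.val < 3 ∧ j.val < 3) := Iff.rfl

theorem adj_sn (i : Fin (n + 5)) : (KY n).Adj (some i) none ↔ i.val < 3 := Iff.rfl

theorem adj_ns (j : Fin (n + 5)) : (KY n).Adj none (some j) ↔ j.val < 3 := Iff.rfl

theorem adj_nn : ¬ (KY n).Adj none none := id

/-- the elements of `Q` in the triangle -/
def lo (Q : Finset (Fin (n + 5))) : Finset (Fin (n + 5)) := Q.filter fun i => i.val < 3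

/-- the other elements of `Q` -/
def hi (Q : Finset (Fin (n + 5))) : Finset (Fin (n + 5)) := Q.filter fun i => ¬ i.val < 3

theorem mem_lo (Q : Finset (Fin (n + 5))) (i : Fin (n + 5)) : i ∈ lo Q ↔ i ∈ Q ∧ i.val < 3 :=
  Finset.mem_filter

theorem mem_hi (Q : Finset (Fin (n + 5))) (i : Fin (n + 5)) : i ∈ hi Q ↔ i ∈ Q ∧ ¬ i.val < 3 :=
  Finset.mem_filter

theorem lo_card (Q : Finset (Fin (n + 5))) : (lo Q).card ≤ 3 := by
  have h : (lo Q).card ≤ (Finset.range 3).card :=
    Finset.card_le_card_of_injOn Fin.val (fun i hi => by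
      rw [Finset.mem_coe, Finset.mem_range]
      exact ((mem_lo Q i).1 hi).2) (fun i _ j _ h => Fin.ext h)
  rwa [Finset.card_range] at h

theorem lo_hi (Q : Finset (Fin (n + 5))) : (lo Q).card + (hi Q).card = Q.card :=
  Finset.card_filter_add_card_filter_not _

theorem lo_univ : (lo (Finset.univ : Finset (Fin (n + 5)))).card = 3 := by
  refine le_antisymm (lo_card _) ?_
  have h : (Finset.univ : Finset (Fin 3)).card ≤ (lo (Finset.univ : Finset (Fin (n + 5)))).card :=
    Finset.card_le_card_of_injOn (Fin.castLE (by omega)) (fun i _ => by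
      rw [Finset.mem_coe, mem_lo]
      exact ⟨Finset.mem_univ _, i.2⟩) ((Fin.castLE_injective _).injOn)
  rwa [Finset.card_univ, Fintype.card_fin] at h

theorem insN_card (Q : Finset (Fin (n + 5))) (h : Q.card = 5) :
    (Finset.insertNone Q).card = 6 := by
  rw [Finset.card_insertNone, h]

theorem y_deg {G : SimpleGraph (Option (Fin (n + 5)))} (hG : G ≤ KY n)
    (Q : Finset (Fin (n + 5))) (N : Finset (Option (Fin (n + 5))))
    (hN : N ⊆ Finset.insertNone Q) (h : ∀ w ∈ N, G.Adj none w) : N.card ≤ (lo Q).card := by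
  have h1 : N ⊆ (lo Q).map Function.Embedding.some := fun w hw => by
    rcases w with _ | j
    · exact absurd (hG (h none hw)) adj_nn
    · refine Finset.mem_map.2 ⟨j, (mem_lo Q j).2 ⟨?_, (adj_ns j).1 (hG (h _ hw))⟩, rfl⟩
      exact Finset.some_mem_insertNone.1 (hN hw)
  have h2 := Finset.card_le_card h1
  rwa [Finset.card_map] at h2

/-- the edge `i j`, where `j` is not in the triangle -/
theorem kills_ss (i j : Fin (n + 5)) (hij : i ≠ j) (hj : ¬ j.val < 3) (Q : Finset (Fin (n + 5)))
    (hi' : i ∈ Q) (hj' : j ∈ Q) (hQ : Q.card = 5) (hT : (lo Q).card = 3 → i.val < 3) :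
    EdgeKills K5 (KY n) (some i) (some j) (Finset.insertNone Q : Set (Option (Fin (n + 5))))ᶜ ∧
    EdgeKills K33 (KY n) (some i) (some j) (Finset.insertNone Q : Set (Option (Fin (n + 5))))ᶜ := by
  have hZ := insN_card Q hQ
  have hne : (some i : Option (Fin (n + 5))) ≠ some j := fun h => hij (Option.some_injective _ h)
  have hiZ : some i ∈ Finset.insertNone Q := Finset.some_mem_insertNone.2 hi'
  have hjZ : some j ∈ Finset.insertNone Q := Finset.some_mem_insertNone.2 hj'
  have hyZ : none ∈ Finset.insertNone Q := Finset.none_mem_insertNone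
  have hdel : ¬ ((KY n).deleteEdges {s(some i, some j)}).Adj (some i) (some j) := by
    rw [SimpleGraph.deleteEdges_adj]
    exact fun h => h.2 rfl
  have hle : (KY n).deleteEdges {s(some i, some j)} ≤ KY n := SimpleGraph.deleteEdges_le _
  refine ⟨⟨?_, ?_⟩, ⟨?_, ?_⟩⟩
  · intro B hB hs
    rw [compl_compl] at hs
    obtain ⟨t, ht, h0, h1, h2, h3, h4⟩ := six5' _ hZ B hB hs none hyZ
      fun N hN h => (y_deg hle Q N hN h).trans (lo_card Q)
    by_cases hti : some i = t
    · rw [← hti] at h2
      rcases h2 (some j) hjZ (Option.some_ne_none _) hne.symm with h | h | h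
      · exact absurd h (Option.some_ne_none _).symm
      · exact hj ((adj_sn j).1 (hle h))
      · exact hdel h.symm
    · by_cases htj : some j = t
      · rw [← htj] at h0
        rcases h0 with h | h
        · exact absurd h (Option.some_ne_none _).symm
        · exact hj ((adj_ns j).1 (hle h))
      · exact hdel (h1 _ hiZ _ hjZ (Option.some_ne_none _) hti (Option.some_ne_none _) htj hne)
  · intro B hB hs k hik hjk
    rw [compl_compl] at hs
    obtain ⟨t, ht, h0, h1, h2, h3, h4⟩ := six5' _ hZ B hB hs none hyZ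
      fun N hN h => (y_deg le_rfl Q N hN h).trans (lo_card Q)
    obtain ⟨h5, h6⟩ := h4 k _ _ hik hjk hne
    exact hne ((h5.resolve_left (Option.some_ne_none _)).trans
      (h6.resolve_left (Option.some_ne_none _)).symm)
  · intro B hB hs
    rw [compl_compl] at hs
    obtain ⟨-, hnb⟩ := six33 _ hZ B hB hs
    by_cases hlo : (lo Q).card = 3
    · have hi3 := hT hlo
      obtain ⟨N, n1, n2, n3⟩ := hnb (some i) hiZ
      have h1 : N ⊆ Finset.insertNone ((hi Q).erase j) := by
        intro w hw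
        rcases w with _ | l
        · exact Finset.none_mem_insertNone
        · have h2 := n3 _ hw
          have h3 := (adj_ss i l).1 (hle h2)
          refine Finset.some_mem_insertNone.2 (Finset.mem_erase.2 ⟨?_, (mem_hi Q l).2
            ⟨Finset.some_mem_insertNone.1 (n1 hw), fun h => h3.2 ⟨hi3, h⟩⟩⟩)
          rintro rfl
          exact hdel h2
      have h2 := Finset.card_le_card h1
      rw [Finset.card_insertNone, Finset.card_erase_of_mem ((mem_hi Q j).2 ⟨hj', hj⟩)] at h2
      have h3 := lo_hi Q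
      omega
    · obtain ⟨N, n1, n2, n3⟩ := hnb none hyZ
      have h1 := y_deg hle Q N n1 n3
      have h2 := lo_card Q
      omega
  · intro B hB hs k hik hjk
    rw [compl_compl] at hs
    exact hne ((six33 _ hZ B hB hs).1 k _ _ hik hjk)

/-- the edge `none a` -/
theorem kills_ns (a : Fin (n + 5)) (ha : a.val < 3) (Q : Finset (Fin (n + 5)))
    (ha' : a ∈ Q) (hQ : Q.card = 5) (hT : (lo Q).card = 3) :
    EdgeKills K5 (KY n) none (some a) (Finset.insertNone Q : Set (Option (Fin (n + 5))))ᶜ ∧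
    EdgeKills K33 (KY n) none (some a) (Finset.insertNone Q : Set (Option (Fin (n + 5))))ᶜ := by
  have hZ := insN_card Q hQ
  have hne : (none : Option (Fin (n + 5))) ≠ some a := (Option.some_ne_none _).symm
  have haZ : some a ∈ Finset.insertNone Q := Finset.some_mem_insertNone.2 ha'
  have hyZ : none ∈ Finset.insertNone Q := Finset.none_mem_insertNone
  have hdel : ¬ ((KY n).deleteEdges {s(none, some a)}).Adj none (some a) := by
    rw [SimpleGraph.deleteEdges_adj]
    exact fun h => h.2 rfl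
  have hle : (KY n).deleteEdges {s(none, some a)} ≤ KY n := SimpleGraph.deleteEdges_le _
  have hhi := lo_hi Q
  have halo : a ∈ lo Q := (mem_lo Q a).2 ⟨ha', ha⟩
  refine ⟨⟨?_, ?_⟩, ⟨?_, ?_⟩⟩
  · intro B hB hs
    rw [compl_compl] at hs
    obtain ⟨t, ht, h0, h1, h2, h3, h4⟩ := six5' _ hZ B hB hs none hyZ
      fun N hN h => (y_deg hle Q N hN h).trans (lo_card Q)
    by_cases hta : some a = t
    · rw [← hta] at h0
      rcases h0 with h | h
      · exact hne h
      · exact hdel h
    · obtain ⟨N, n1, n2, n3⟩ := h3 (some a) haZ hne.symm hta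
      have h5 : N ⊆ (hi Q).map Function.Embedding.some := by
        intro w hw
        rcases w with _ | l
        · exact absurd (n3 _ hw).symm hdel
        · have h6 := (adj_ss a l).1 (hle (n3 _ hw))
          exact Finset.mem_map.2 ⟨l, (mem_hi Q l).2 ⟨Finset.some_mem_insertNone.1 (n1 hw),
            fun h => h6.2 ⟨ha, h⟩⟩, rfl⟩
      have h6 := Finset.card_le_card h5
      rw [Finset.card_map] at h6
      omega
  · intro B hB hs k hyk hak
    rw [compl_compl] at hs
    obtain ⟨t, ht, h0, h1, h2, h3, h4⟩ := six5' _ hZ B hB hs none hyZ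
      fun N hN h => (y_deg le_rfl Q N hN h).trans (lo_card Q)
    have h5 := ((h4 k _ _ hyk hak hne).2).resolve_left hne.symm
    have h6 : 1 < ((lo Q).erase a).card := by
      rw [Finset.card_erase_of_mem halo]
      omega
    obtain ⟨b, hb, c, hc, hbc⟩ := Finset.one_lt_card.1 h6
    rw [Finset.mem_erase, mem_lo] at hb hc
    have h7 := h1 (some b) (Finset.some_mem_insertNone.2 hb.2.1) (some c)
      (Finset.some_mem_insertNone.2 hc.2.1) (Option.some_ne_none _)
      (fun h => hb.1 (Option.some_injective _ (h.trans h5.symm))) (Option.some_ne_none _)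
      (fun h => hc.1 (Option.some_injective _ (h.trans h5.symm)))
      (fun h => hbc (Option.some_injective _ h))
    exact ((adj_ss b c).1 h7).2 ⟨hb.2.2, hc.2.2⟩
  · intro B hB hs
    rw [compl_compl] at hs
    obtain ⟨-, hnb⟩ := six33 _ hZ B hB hs
    obtain ⟨N, n1, n2, n3⟩ := hnb none hyZ
    have h1 : N ⊆ ((lo Q).erase a).map Function.Embedding.some := by
      intro w hw
      rcases w with _ | l
      · exact absurd (hle (n3 _ hw)) adj_nn
      · refine Finset.mem_map.2 ⟨l, Finset.mem_erase.2 ⟨?_, (mem_lo Q l).2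
          ⟨Finset.some_mem_insertNone.1 (n1 hw), (adj_ns l).1 (hle (n3 _ hw))⟩⟩, rfl⟩
        rintro rfl
        exact hdel (n3 _ hw)
    have h2 := Finset.card_le_card h1
    rw [Finset.card_map, Finset.card_erase_of_mem halo] at h2
    omega
  · intro B hB hs k hyk hak
    rw [compl_compl] at hs
    exact hne ((six33 _ hZ B hB hs).1 k _ _ hyk hak)

theorem compl_card (Q : Finset (Fin (n + 5))) (hQ : Q.card = 5) :
    ((Finset.insertNone Q)ᶜ : Finset (Option (Fin (n + 5)))).card ≤ n := by
  rw [Finset.card_compl, Fintype.card_option, Fintype.card_fin, insN_card Q hQ]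
  omega

theorem edge_ss (i j : Fin (n + 5)) (hn : 1 ≤ n) (hij : i ≠ j) (hj : ¬ j.val < 3) :
    ∃ X : Finset (Option (Fin (n + 5))), X.card ≤ n ∧
      EdgeKills K5 (KY n) (some i) (some j) (X : Set (Option (Fin (n + 5)))) ∧
      EdgeKills K33 (KY n) (some i) (some j) (X : Set (Option (Fin (n + 5)))) := by
  have hex : ∃ Q : Finset (Fin (n + 5)), i ∈ Q ∧ j ∈ Q ∧ Q.card = 5 ∧
      ((lo Q).card = 3 → i.val < 3) := by
    by_cases hi3 : i.val < 3
    · obtain ⟨Q, h1, -, h3⟩ := Finset.exists_subsuperset_card_eq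
        (Finset.subset_univ ({i, j} : Finset (Fin (n + 5)))) (n := 5)
        (by
          have := Finset.card_le_two (a := i) (b := j)
          omega) (by
          rw [Finset.card_univ, Fintype.card_fin]
          omega)
      exact ⟨Q, h1 (by simp), h1 (by simp), h3, fun _ => hi3⟩
    · have hk : ∃ k, k ∈ hi (Finset.univ : Finset (Fin (n + 5))) ∧ k ≠ i ∧ k ≠ j := by
        have h0 : 0 < (((hi (Finset.univ : Finset (Fin (n + 5)))).erase i).erase j).card := by
          have h1 := lo_hi (Finset.univ : Finset (Fin (n + 5)))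
          rw [Finset.card_univ, Fintype.card_fin, lo_univ] at h1
          have h2 := Finset.pred_card_le_card_erase
            (s := hi (Finset.univ : Finset (Fin (n + 5)))) (a := i)
          have h3 := Finset.pred_card_le_card_erase
            (s := (hi (Finset.univ : Finset (Fin (n + 5)))).erase i) (a := j)
          omega
        obtain ⟨k, hk⟩ := Finset.card_pos.1 h0
        rw [Finset.mem_erase, Finset.mem_erase] at hk
        exact ⟨k, hk.2.2, hk.2.1, hk.1⟩
      obtain ⟨k, hk, hki, hkj⟩ := hk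
      obtain ⟨Q, h1, -, h3⟩ := Finset.exists_subsuperset_card_eq
        (Finset.subset_univ ({i, j, k} : Finset (Fin (n + 5)))) (n := 5)
        (by
          have := Finset.card_le_three (a := i) (b := j) (c := k)
          omega) (by
          rw [Finset.card_univ, Fintype.card_fin]
          omega)
      refine ⟨Q, h1 (by simp), h1 (by simp), h3, fun h => ?_⟩
      have h4 : ({i, j, k} : Finset (Fin (n + 5))) ⊆ hi Q := by
        intro l hl
        refine (mem_hi Q l).2 ⟨h1 hl, ?_⟩
        rw [Finset.mem_insert, Finset.mem_insert, Finset.mem_singleton] at hl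
        rcases hl with rfl | rfl | rfl
        · exact hi3
        · exact hj
        · exact ((mem_hi _ _).1 hk).2
      have h5 := Finset.card_le_card h4
      rw [Finset.card_eq_three.2 ⟨i, j, k, hij, hki.symm, hkj.symm, rfl⟩] at h5
      have h6 := lo_hi Q
      omega
  obtain ⟨Q, h1, h2, h3, h4⟩ := hex
  refine ⟨(Finset.insertNone Q)ᶜ, compl_card Q h3, ?_⟩
  rw [Finset.coe_compl]
  exact kills_ss i j hij hj Q h1 h2 h3 h4

theorem edge_ns (a : Fin (n + 5)) (ha : a.val < 3) :
    ∃ X : Finset (Option (Fin (n + 5))), X.card ≤ n ∧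
      EdgeKills K5 (KY n) none (some a) (X : Set (Option (Fin (n + 5)))) ∧
      EdgeKills K33 (KY n) none (some a) (X : Set (Option (Fin (n + 5)))) := by
  obtain ⟨Q, h1, -, h3⟩ := Finset.exists_subsuperset_card_eq
    (Finset.subset_univ (lo (Finset.univ : Finset (Fin (n + 5))))) (n := 5)
    (by
      rw [lo_univ]
      omega) (by
      rw [Finset.card_univ, Fintype.card_fin]
      omega)
  have h4 : lo (Finset.univ : Finset (Fin (n + 5))) ⊆ lo Q := fun i hi =>
    (mem_lo Q i).2 ⟨h1 hi, ((mem_lo _ i).1 hi).2⟩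
  have h5 : (lo Q).card = 3 := by
    have h6 := Finset.card_le_card h4
    rw [lo_univ] at h6
    have h7 := lo_card Q
    omega
  refine ⟨(Finset.insertNone Q)ᶜ, compl_card Q h3, ?_⟩
  rw [Finset.coe_compl]
  exact kills_ns a ha Q (h1 ((mem_lo _ a).2 ⟨Finset.mem_univ a, ha⟩)) h3 h5

/-- `K₃,₃` from single vertices -/
theorem sing33 {V : Type} {G : SimpleGraph V} {Z : Set V} (g h : Fin 3 → V)
    (hg : Function.Injective g) (hh : Function.Injective h) (hgh : ∀ i j, g i ≠ h j)
    (ha : ∀ i j, G.Adj (g i) (h j)) (gZ : ∀ i, g i ∈ Z) (hZ : ∀ i, h i ∈ Z) : HasK33 G Z := by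
  refine hasK33_mk (fun i => {g i}) (fun i => {h i}) (fun i => Conn.singleton G _)
    (fun i => Conn.singleton G _) ?_ ?_ ?_ (fun i j => touch_singleton.2 (ha i j))
    (fun i => Set.singleton_subset_iff.2 (gZ i)) (fun i => Set.singleton_subset_iff.2 (hZ i))
  · exact fun i j hij => Set.disjoint_singleton.2 fun h => hij (hg h)
  · exact fun i j hij => Set.disjoint_singleton.2 fun h => hij (hh h)
  · exact fun i j => Set.disjoint_singleton.2 (hgh i j)

theorem not_pl (X : Finset (Option (Fin (n + 5)))) (hX : X.card ≤ n) :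
    ¬ Pl (KY n) ((X : Set (Option (Fin (n + 5))))ᶜ) := by
  classical
  rintro ⟨no5, no33⟩
  obtain ⟨Q, hQ⟩ : ∃ Q : Finset (Fin (n + 5)), Q = Finset.univ.filter fun i => some i ∉ X :=
    ⟨_, rfl⟩
  have hQX : ∀ i ∈ Q, some i ∈ ((X : Set (Option (Fin (n + 5))))ᶜ) := fun i hi => by
    rw [hQ, Finset.mem_filter] at hi
    exact hi.2
  have hQc : ∀ i, i ∈ Qᶜ → some i ∈ X := fun i hi => by
    rw [hQ, Finset.mem_compl, Finset.mem_filter] at hi
    by_contra h
    exact hi ⟨Finset.mem_univ _, h⟩
  have hcc : (Qᶜ).card + Q.card = n + 5 := by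
    rw [Finset.card_compl, Fintype.card_fin]
    have : Q.card ≤ n + 5 := by
      have := Finset.card_le_univ Q
      rwa [Fintype.card_fin] at this
    omega
  by_cases hy : none ∈ X
  · have h1 : Finset.insertNone (Qᶜ) ⊆ X := by
      intro w hw
      rcases w with _ | i
      · exact hy
      · exact hQc i (Finset.some_mem_insertNone.1 hw)
    have h2 := Finset.card_le_card h1
    rw [Finset.card_insertNone] at h2
    have h3 : lo Q ⊆ Q := Finset.filter_subset _ _
    obtain ⟨A, hA1, hA2, hA3⟩ := Finset.exists_subsuperset_card_eq h3 (lo_card Q)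
      (by omega : 3 ≤ Q.card)
    have h4 : 3 ≤ (Q \ A).card := by
      rw [Finset.card_sdiff_of_subset hA2]
      omega
    obtain ⟨C, hC1, hC2⟩ := Finset.exists_subset_card_eq h4
    refine no33 (sing33 (fun i => some (A.orderEmbOfFin hA3 i))
      (fun i => some (C.orderEmbOfFin hC2 i)) ?_ ?_ ?_ ?_ ?_ ?_)
    · exact fun i j h => (A.orderEmbOfFin hA3).injective (Option.some_injective _ h)
    · exact fun i j h => (C.orderEmbOfFin hC2).injective (Option.some_injective _ h)
    · intro i j h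
      have h5 := Option.some_injective _ h
      have h6 := (Finset.mem_sdiff.1 (hC1 (Finset.orderEmbOfFin_mem C hC2 j))).2
      rw [← h5] at h6
      exact h6 (Finset.orderEmbOfFin_mem A hA3 i)
    · intro i j
      have h6 := Finset.mem_sdiff.1 (hC1 (Finset.orderEmbOfFin_mem C hC2 j))
      refine (adj_ss _ _).2 ⟨fun h5 => ?_, fun h5 => ?_⟩
      · rw [← h5] at h6
        exact h6.2 (Finset.orderEmbOfFin_mem A hA3 i)
      · exact h6.2 (hA1 ((mem_lo Q _).2 ⟨h6.1, h5.2⟩))
    · exact fun i => hQX _ (hA2 (Finset.orderEmbOfFin_mem A hA3 i))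
    · exact fun i => hQX _ (Finset.mem_sdiff.1 (hC1 (Finset.orderEmbOfFin_mem C hC2 i))).1
  · have h1 : (Qᶜ).map Function.Embedding.some ⊆ X := by
      intro w hw
      obtain ⟨i, hi, rfl⟩ := Finset.mem_map.1 hw
      exact hQc i hi
    have h2 := Finset.card_le_card h1
    rw [Finset.card_map] at h2
    have hyZ : none ∈ ((X : Set (Option (Fin (n + 5))))ᶜ) := hy
    by_cases hlo : (lo Q).card = 3
    · have h3 : 1 < (hi Q).card := by
        have := lo_hi Q
        omega
      obtain ⟨c, hc, d, hd, hcd⟩ := Finset.one_lt_card.1 h3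
      rw [mem_hi] at hc hd
      have hl : ∀ i, (lo Q).orderEmbOfFin hlo i ∈ Q ∧ ((lo Q).orderEmbOfFin hlo i).val < 3 :=
        fun i => (mem_lo Q _).1 (Finset.orderEmbOfFin_mem (lo Q) hlo i)
      have hadj : ∀ i c, c ∈ Q → ¬ c.val < 3 →
          (KY n).Adj (some ((lo Q).orderEmbOfFin hlo i)) (some c) := fun i c _ hc => by
        refine (adj_ss _ _).2 ⟨fun h => hc ?_, fun h => hc h.2⟩
        rw [← h]
        exact (hl i).2
      refine no33 (sing33 (fun i => some ((lo Q).orderEmbOfFin hlo i))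
        ![none, some c, some d] ?_ ?_ ?_ ?_ ?_ ?_)
      · exact fun i j h => ((lo Q).orderEmbOfFin hlo).injective (Option.some_injective _ h)
      · intro i j h
        have hdc : d ≠ c := hcd.symm
        fin_cases i <;> fin_cases j <;> simp_all
      · intro i j h
        have h5 : (KY n).Adj (some ((lo Q).orderEmbOfFin hlo i)) (![none, some c, some d] j) := by
          fin_cases j
          · exact (adj_sn _).2 (hl i).2
          · exact hadj i c hc.1 hc.2
          · exact hadj i d hd.1 hd.2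
        exact h5.ne h
      · intro i j
        fin_cases j
        · exact (adj_sn _).2 (hl i).2
        · exact hadj i c hc.1 hc.2
        · exact hadj i d hd.1 hd.2
      · exact fun i => hQX _ (hl i).1
      · intro j
        fin_cases j
        · exact hyZ
        · exact hQX _ hc.1
        · exact hQX _ hd.1
    · have hlo2 : (lo Q).card ≤ 2 := by
        have := lo_card Q
        omega
      obtain ⟨A, hA1, hA2⟩ := Finset.exists_subset_card_eq (by omega : 5 ≤ Q.card)
      obtain ⟨f, hf⟩ : ∃ f : Fin 5 → Fin (n + 5), f = fun i => A.orderEmbOfFin hA2 i := ⟨_, rfl⟩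
      have hfi : Function.Injective f := by
        rw [hf]
        exact (A.orderEmbOfFin hA2).injective
      have hfQ : ∀ i, f i ∈ Q := by
        rw [hf]
        exact fun i => hA1 (Finset.orderEmbOfFin_mem A hA2 i)
      by_cases hk : ∃ k, (f k).val < 3
      · obtain ⟨k0, hk0⟩ := hk
        have hnot : ∀ k l, k ≠ l → k ≠ k0 → l ≠ k0 → ¬ ((f k).val < 3 ∧ (f l).val < 3) := by
          intro k l hkl hkk hlk h
          have h5 : ({f k, f l, f k0} : Finset (Fin (n + 5))) ⊆ lo Q := by
            intro z hz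
            rw [Finset.mem_insert, Finset.mem_insert, Finset.mem_singleton] at hz
            rcases hz with rfl | rfl | rfl
            · exact (mem_lo Q _).2 ⟨hfQ k, h.1⟩
            · exact (mem_lo Q _).2 ⟨hfQ l, h.2⟩
            · exact (mem_lo Q _).2 ⟨hfQ k0, hk0⟩
          have h6 := Finset.card_le_card h5
          rw [Finset.card_eq_three.2 ⟨f k, f l, f k0, fun h => hkl (hfi h),
            fun h => hkk (hfi h), fun h => hlk (hfi h), rfl⟩] at h6
          omega
        have htouch : ∀ l, l ≠ k0 → Touch (KY n) {some (f k0), none} {some (f l)} := by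
          intro l hl
          by_cases h : (f l).val < 3
          · exact ⟨none, Or.inr rfl, some (f l), rfl, (adj_ns _).2 h⟩
          · refine ⟨some (f k0), Or.inl rfl, some (f l), rfl, (adj_ss _ _).2 ⟨fun h' => hl ?_,
              fun h' => h h'.2⟩⟩
            exact (hfi h').symm
        refine no5 ⟨fun k => if k = k0 then {some (f k0), none} else {some (f k)}, ?_, ?_⟩
        · rw [isModel_iff]
          refine ⟨?_, ?_, ?_⟩
          · intro k
            by_cases hkk : k = k0
            · rw [if_pos hkk]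
              exact conn_pair ((adj_sn _).2 hk0)
            · rw [if_neg hkk]
              exact Conn.singleton _ _
          · intro k l hkl
            by_cases hkk : k = k0
            · have hlk : l ≠ k0 := fun h => hkl (hkk.trans h.symm)
              rw [if_pos hkk, if_neg hlk, Set.disjoint_singleton_right]
              rintro (h | h)
              · exact hlk (hfi (Option.some_injective _ h))
              · exact Option.some_ne_none _ h
            · by_cases hlk : l = k0
              · rw [if_neg hkk, if_pos hlk, Set.disjoint_singleton_left]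
                rintro (h | h)
                · exact hkk (hfi (Option.some_injective _ h))
                · exact Option.some_ne_none _ h
              · rw [if_neg hkk, if_neg hlk, Set.disjoint_singleton]
                exact fun h => hkl (hfi (Option.some_injective _ h))
          · intro k l hkl
            have hkl' : k ≠ l := hkl
            by_cases hkk : k = k0
            · have hlk : l ≠ k0 := fun h => hkl' (hkk.trans h.symm)
              rw [if_pos hkk, if_neg hlk]
              exact htouch l hlk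
            · by_cases hlk : l = k0
              · rw [if_neg hkk, if_pos hlk]
                exact (htouch k hkk).symm
              · rw [if_neg hkk, if_neg hlk]
                exact ⟨_, rfl, _, rfl, (adj_ss _ _).2 ⟨fun h => hkl' (hfi h),
                  hnot k l hkl' hkk hlk⟩⟩
        · intro k
          show (if k = k0 then {some (f k0), none} else {some (f k)} :
            Set (Option (Fin (n + 5)))) ⊆ _
          by_cases hkk : k = k0
          · rw [if_pos hkk]
            rintro z (rfl | rfl)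
            · exact hQX _ (hfQ k0)
            · exact hyZ
          · rw [if_neg hkk]
            exact Set.singleton_subset_iff.2 (hQX _ (hfQ k))
      · refine no5 ⟨fun k => {some (f k)}, ?_, ?_⟩
        · rw [isModel_iff]
          refine ⟨fun k => Conn.singleton _ _, ?_, ?_⟩
          · exact fun k l hkl => Set.disjoint_singleton.2 fun h =>
              hkl (hfi (Option.some_injective _ h))
          · intro k l hkl
            have hkl' : k ≠ l := hkl
            exact ⟨_, rfl, _, rfl, (adj_ss _ _).2 ⟨fun h => hkl' (hfi h),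
              fun h => hk ⟨k, h.1⟩⟩⟩
        · exact fun k => Set.singleton_subset_iff.2 (hQX _ (hfQ k))

end ky

theorem gKMY : Goals.KMY := by
  classical
  intro n hn
  refine minMinimal_of_edges (KY n) n ?_ ?_ ?_
  · rintro ⟨X, hX, hP⟩
    exact not_pl X hX ((pl_iff _ _).2 hP)
  · intro v
    rcases v with _ | i
    · exact ⟨some ⟨0, by omega⟩, (adj_ns _).2 (by simp)⟩
    · by_cases h : i.val < 3
      · exact ⟨none, (adj_sn i).2 h⟩
      · refine ⟨some ⟨0, by omega⟩, (adj_ss _ _).2 ⟨fun h' => h ?_, fun h' => h h'.1⟩⟩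
        rw [h']
        simp
  · intro x y hxy
    rcases x with _ | i
    · rcases y with _ | j
      · exact absurd hxy adj_nn
      · exact edge_ns j ((adj_ns j).1 hxy)
    · rcases y with _ | j
      · obtain ⟨X, h1, h2, h3⟩ := edge_ns i ((adj_sn i).1 hxy)
        exact ⟨X, h1, h2.symm, h3.symm⟩
      · obtain ⟨h1, h2⟩ := (adj_ss i j).1 hxy
        by_cases hj : j.val < 3
        · have hi : ¬ i.val < 3 := fun h => h2 ⟨h, hj⟩
          obtain ⟨X, h1, h2, h3⟩ := edge_ss j i hn h1.symm hi
          exact ⟨X, h1, h2.symm, h3.symm⟩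
        · exact edge_ss i j hn h1 hj

end NApexGraphs.Dom.Helper39
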